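import Pool.Agent.P.MP_cb5d8b_an.Arc

/-! Arcs through three marked points: homotopy, lifting, the obstruction, loops. -/

namespace Pool.Agent.P.MP_cb5d8b_an.Na

open Set Metric Filter Topology

section General

variable {X : Type} [TopologicalSpace X]

/-- No arc through `P` is invariant under `F`. -/
def NoArc (F : X → X) (P : Set X) : Prop :=
  ¬ ∃ γ : unitInterval → X, Continuous γ ∧ Function.Injective γ ∧ P ⊆ range γ ∧
    F '' range γ ⊆ range γ

/-- A path from `p` to `q` whose inner points avoid `P`. -/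
def Av (P : Set X) (p q : X) (ξ : C(unitInterval, X)) : Prop :=
  ξ 0 = p ∧ ξ 1 = q ∧ ∀ t, t ≠ 0 → t ≠ 1 → ξ t ∉ P

/-- The complement of every point is a plane. -/
def Punct (X : Type) [TopologicalSpace X] : Prop :=
  ∀ r : X, ∃ φ : OpenPartialHomeomorph X ℂ, φ.source = {r}ᶜ ∧ φ.target = univ

/-- A level curve of `l` separates `c` from `a` and `b`, and meets the preimage of two arcs from
`c` to `a` and from `c` to `b` only in a point `w` over `{c, a, b}`. -/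
def Cut (F : X → X) (c a b : X) : Prop :=
  ∃ (α β : C(unitInterval, X)) (l : X → ℝ) (w : X),
    Function.Injective α ∧ α 0 = c ∧ α 1 = a ∧ b ∉ range α ∧
    Function.Injective β ∧ β 0 = c ∧ β 1 = b ∧ a ∉ range β ∧
    Continuous l ∧ l c < 0 ∧ 0 < l a ∧ 0 < l b ∧ F w ∈ ({c, a, b} : Set X) ∧
    ∀ x, l x = 0 → F x ∈ range α ∪ range β → x = w

end General

/-- Two arcs with the same ends in a plane are homotopic off their ends. -/
def S_H : Prop := ∀ (X : Type) [TopologicalSpace X] (r : X) (φ : OpenPartialHomeomorph X ℂ),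
  φ.source = {r}ᶜ → φ.target = univ → ∀ η η' : C(unitInterval, X),
  Function.Injective η → Function.Injective η' → η 0 = η' 0 → η 1 = η' 1 →
  r ∉ range η → r ∉ range η' → η.HomotopicWith η' (Av {η 0, η 1, r} (η 0) (η 1))

/-- Lifting of such a homotopy. -/
def S_LIFT : Prop := ∀ (X : Type) [TopologicalSpace X] [T2Space X] [CompactSpace X] (F : X → X)
  (P : Set X), Continuous F → (F ⁻¹' P).Finite → IsLocalHomeomorphOn F (F ⁻¹' P)ᶜ →
  ∀ (p q : X) (η η' γ : C(unitInterval, X)), p ∈ P → q ∈ P → η.HomotopicWith η' (Av P p q) →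
  (∀ t, F (γ t) = η t) → ∃ K : Set X, IsPreconnected K ∧ γ 0 ∈ closure K ∧ γ 1 ∈ closure K ∧
    ∀ x ∈ K, ∃ t, t ≠ 0 ∧ t ≠ 1 ∧ F x = η' t

/-- The obstruction. -/
def S_NOARC : Prop := ∀ (X : Type) [TopologicalSpace X] [T2Space X] [CompactSpace X], Punct X →
  ∀ (F : X → X) (c a b : X), c ≠ a → c ≠ b → a ≠ b → Continuous F → F c = c → F a = c → F b = c →
  (F ⁻¹' {c, a, b}).Finite → IsLocalHomeomorphOn F ((F ⁻¹' {c, a, b})ᶜ ∪ {a, b}) →
  Cut F c a b → NoArc F {c, a, b}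

namespace HtyA

theorem hw {X : Type} [TopologicalSpace X] {P : Set X} {p q : X} {η η' : C(unitInterval, X)}
    (H : unitInterval × unitInterval → X) (hH : Continuous H) (h0 : ∀ t, H (0, t) = η t)
    (h1 : ∀ t, H (1, t) = η' t)
    (hp : ∀ s, H (s, 0) = p ∧ H (s, 1) = q ∧ ∀ t, t ≠ 0 → t ≠ 1 → H (s, t) ∉ P) :
    η.HomotopicWith η' (Av P p q) :=
  ⟨⟨⟨⟨H, hH⟩, h0, h1⟩, hp⟩⟩

theorem inner {t : unitInterval} (h0 : t ≠ 0) (h1 : t ≠ 1) : 0 < (t : ℝ) ∧ (t : ℝ) < 1 :=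
  ⟨lt_of_le_of_ne t.2.1 fun e => h0 (Subtype.ext e.symm),
    lt_of_le_of_ne t.2.2 fun e => h1 (Subtype.ext e)⟩

/-- The segment. -/
noncomputable def seg (p q : ℂ) : C(unitInterval, ℂ) :=
  ⟨fun t => p + (q - p) * ((t : ℝ) : ℂ), by fun_prop⟩

theorem lens {w : ℂ} {s t : ℝ} (hw0 : w ≠ 0) (hw : ‖w - 1‖ ≤ 1) (hs0 : 0 ≤ s) (hs1 : s ≤ 1)
    (ht : 0 < t) : (1 - (s : ℂ)) * w + s * t ≠ 0 := by
  intro h
  have hre := congrArg Complex.re h
  have him := congrArg Complex.im h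
  simp at hre him
  have h2 : (w.re - 1) ^ 2 + w.im ^ 2 ≤ 1 := by
    have := Complex.sq_norm (w - 1)
    rw [Complex.normSq_apply] at this
    simp at this
    nlinarith [norm_nonneg (w - 1)]
  have hpos : 0 < w.re := by
    by_contra hle
    have h3 : w.re = 0 := by nlinarith [sq_nonneg w.im]
    have h4 : w.im = 0 := by nlinarith [sq_nonneg w.im]
    exact hw0 (Complex.ext h3 h4)
  rcases hs0.eq_or_lt with e | e
  · rw [← e] at hre
    linarith
  · nlinarith [mul_pos e ht, mul_nonneg (sub_nonneg.2 hs1) hpos.le]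

theorem plane (η : C(unitInterval, ℂ)) (hi : Function.Injective η) :
    η.HomotopicWith (seg (η 0) (η 1)) (Av {η 0, η 1} (η 0) (η 1)) := by
  obtain ⟨e, he⟩ : ∃ e : ℝ → ℂ, e = fun r => η (projIcc 0 1 zero_le_one r) := ⟨_, rfl⟩
  have ec : Continuous e := he ▸ η.continuous.comp continuous_projIcc
  have ee : ∀ t : unitInterval, e t = η t := fun t => by rw [he]; simp
  have ei : InjOn e (Icc 0 1) := fun u hu v hv h =>
    congrArg Subtype.val (hi ((ee ⟨u, hu⟩).symm.trans (h.trans (ee ⟨v, hv⟩))))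
  have h01 : η 1 - η 0 ≠ 0 := sub_ne_zero.2 fun h => zero_ne_one (hi h).symm
  obtain ⟨s₁, s₂, a1, a2, a3, hm⟩ : ∃ s₁ s₂ : ℝ, 0 ≤ s₁ ∧ s₁ < s₂ ∧ s₂ ≤ 1 ∧
      ∀ u ∈ Icc (0 : ℝ) 1, ∀ v ∈ Icc (0 : ℝ) 1, ‖e u - e v‖ ≤ ‖e s₂ - e s₁‖ := by
    obtain ⟨⟨u, v⟩, ⟨hu, hv⟩, hm⟩ := (isCompact_Icc.prod isCompact_Icc).exists_isMaxOn
      (s := Icc (0 : ℝ) 1 ×ˢ Icc (0 : ℝ) 1) ⟨(0, 0), by simp⟩
      (f := fun w => ‖e w.1 - e w.2‖) (by fun_prop)
    have hm' : ∀ a ∈ Icc (0 : ℝ) 1, ∀ b ∈ Icc (0 : ℝ) 1, ‖e a - e b‖ ≤ ‖e u - e v‖ :=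
      fun a ha b hb => hm (show (a, b) ∈ _ from ⟨ha, hb⟩)
    rcases lt_trichotomy u v with h | h | h
    · exact ⟨u, v, hu.1, h, hv.2, fun a ha b hb => norm_sub_rev (e u) (e v) ▸ hm' a ha b hb⟩
    · have := hm' 1 (by simp) 0 (by simp)
      rw [h, sub_self, norm_zero, show e 1 = η 1 from ee 1, show e 0 = η 0 from ee 0] at this
      exact absurd (norm_le_zero_iff.1 this) h01
    · exact ⟨v, u, hv.1, h, hu.2, hm'⟩
  obtain ⟨x, hx⟩ : ∃ x : ℝ → ℝ, x = fun s => s * s₁ := ⟨_, rfl⟩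
  obtain ⟨z, hz⟩ : ∃ z : ℝ → ℝ, z = fun s => 1 + s * (s₂ - 1) := ⟨_, rfl⟩
  have xc : Continuous x := by rw [hx]; fun_prop
  have zc : Continuous z := by rw [hz]; fun_prop
  have xz : ∀ s : unitInterval, 0 ≤ x s ∧ x s < z s ∧ z s ≤ 1 := fun s => by
    have b0 := s.2.1
    have b1 := s.2.2
    rw [hx, hz]
    refine ⟨mul_nonneg b0 a1, ?_, ?_⟩ <;> nlinarith
  obtain ⟨N, hN⟩ : ∃ N : unitInterval × unitInterval → ℂ, N = fun w =>
    (e (x w.1 + w.2 * (z w.1 - x w.1)) - e (x w.1)) / (e (z w.1) - e (x w.1)) := ⟨_, rfl⟩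
  have mx : ∀ s : unitInterval, x s ∈ Icc (0 : ℝ) 1 := fun s =>
    ⟨(xz s).1, (xz s).2.1.le.trans (xz s).2.2⟩
  have mz : ∀ s : unitInterval, z s ∈ Icc (0 : ℝ) 1 := fun s =>
    ⟨(xz s).1.trans (xz s).2.1.le, (xz s).2.2⟩
  have mm : ∀ s t : unitInterval, x s + t * (z s - x s) ∈ Icc (0 : ℝ) 1 := fun s t => by
    obtain ⟨b1, b2, b3⟩ := xz s
    constructor <;> nlinarith [t.2.1, t.2.2]
  have den : ∀ s : unitInterval, e (z s) - e (x s) ≠ 0 := fun s =>
    sub_ne_zero.2 fun h => (xz s).2.1.ne' (ei (mz s) (mx s) h)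
  have Nc : Continuous N := by
    rw [hN]
    exact Continuous.div (by fun_prop) (by fun_prop) fun w => den w.1
  have N0 : ∀ s, N (s, 0) = 0 := fun s => by simp [hN]
  have N1 : ∀ s, N (s, 1) = 1 := fun s => by simp [hN, div_self (den s)]
  have Nn : ∀ s t, t ≠ 0 → t ≠ 1 → N (s, t) ≠ 0 ∧ N (s, t) ≠ 1 := fun s t h0 h1 => by
    obtain ⟨c0, c1⟩ := inner h0 h1
    obtain ⟨b1, b2, b3⟩ := xz s
    rw [hN]
    constructor
    · refine div_ne_zero (sub_ne_zero.2 fun h => ?_) (den s)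
      have := ei (mm s t) (mx s) h
      nlinarith
    · intro h
      have := ei (mm s t) (mz s) (sub_left_inj.1 ((div_eq_one_iff_eq (den s)).1 h))
      nlinarith
  have av : ∀ w : ℂ, w ≠ 0 → w ≠ 1 → η 0 + (η 1 - η 0) * w ∉ ({η 0, η 1} : Set ℂ) := by
    rintro w h0 h1 (h | h)
    · exact h0 (mul_left_cancel₀ h01 (by linear_combination h))
    · exact h1 (mul_left_cancel₀ h01 (by rw [mem_singleton_iff] at h; linear_combination h))
  refine ContinuousMap.HomotopicWith.trans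
    (g := ⟨fun t => η 0 + (η 1 - η 0) * N (1, t), by fun_prop⟩)
    (hw (fun w => η 0 + (η 1 - η 0) * N w) (by fun_prop) (fun t => ?_) (fun t => rfl) fun s => ?_)
    (hw (fun w => η 0 + (η 1 - η 0) * ((1 - ((w.1 : ℝ) : ℂ)) * N (1, w.2) + (w.1 : ℝ) * (w.2 : ℝ)))
      (by fun_prop) (fun t => by simp) (fun t => by simp [seg]) fun s => ?_)
  · have f0 : e 0 = η 0 := ee 0
    have f1 : e 1 = η 1 := ee 1
    simp [hN, hx, hz, ee, f0, f1, mul_div_cancel₀ _ h01]
  · exact ⟨by simp [N0], by simp [N1], fun t h0 h1 => av _ (Nn s t h0 h1).1 (Nn s t h0 h1).2⟩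
  · refine ⟨by simp [N0], by simp [N1], fun t h0 h1 => ?_⟩
    obtain ⟨c0, c1⟩ := inner h0 h1
    have x1 : x (1 : unitInterval) = s₁ := by simp [hx]
    have z1 : z (1 : unitInterval) = s₂ := by simp [hz]
    have d1 := den 1
    have n0 : ‖N (1, t)‖ ≤ 1 := by
      rw [hN]
      beta_reduce
      rw [norm_div, div_le_one (norm_pos_iff.2 d1)]
      have := hm _ (mm 1 t) _ (mx 1)
      rwa [← x1, ← z1] at this
    have n1 : ‖N (1, t) - 1‖ ≤ 1 := by
      rw [hN]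
      beta_reduce
      rw [div_sub_one d1, norm_div, div_le_one (norm_pos_iff.2 d1), sub_sub_sub_cancel_right]
      have := hm _ (mm 1 t) _ (mz 1)
      rwa [← x1, ← z1] at this
    refine av _ (lens (Nn 1 t h0 h1).1 n1 s.2.1 s.2.2 c0) fun h => ?_
    refine lens (w := 1 - N (1, t)) (s := s) (t := 1 - t) (sub_ne_zero.2 (Nn 1 t h0 h1).2.symm)
      (by simpa using n0) s.2.1 s.2.2 (by linarith) ?_
    push_cast
    linear_combination -h

end HtyA

theorem p_H : S_H := by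
  intro X _ r φ hs ht η η' hi hi' e0 e1 hr hr'
  have key : ∀ ξ : C(unitInterval, X), r ∉ range ξ → ∀ t, ξ t ∈ φ.source := fun ξ h t => by
    rw [hs]; exact fun e => h ⟨t, e⟩
  have cs : Continuous φ.symm := by
    rw [← continuousOn_univ, ← ht]; exact φ.continuousOn_symm
  obtain ⟨a, ha⟩ : ∃ a : C(unitInterval, ℂ), ∀ t, a t = φ (η t) :=
    ⟨⟨fun t => φ (η t), φ.continuousOn.comp_continuous η.continuous (key η hr)⟩, fun _ => rfl⟩
  obtain ⟨b, hb⟩ : ∃ b : C(unitInterval, ℂ), ∀ t, b t = φ (η' t) :=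
    ⟨⟨fun t => φ (η' t), φ.continuousOn.comp_continuous η'.continuous (key η' hr')⟩, fun _ => rfl⟩
  have h1 := HtyA.plane a fun s t h => hi (φ.injOn (key η hr s) (key η hr t) (by rwa [← ha, ← ha]))
  have h2 := HtyA.plane b fun s t h =>
    hi' (φ.injOn (key η' hr' s) (key η' hr' t) (by rwa [← hb, ← hb]))
  rw [show b 0 = a 0 by rw [ha, hb, e0], show b 1 = a 1 by rw [ha, hb, e1]] at h2
  obtain ⟨H⟩ := h1.trans h2.symm
  have tg : ∀ z, z ∈ φ.target := fun z => ht ▸ mem_univ z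
  refine HtyA.hw (fun w => φ.symm (H w)) (cs.comp H.continuous) (fun t => ?_) (fun t => ?_)
    fun s => ?_
  · rw [H.apply_zero, ha, φ.left_inv (key η hr t)]
  · rw [H.apply_one, hb, φ.left_inv (key η' hr' t)]
  · obtain ⟨k0, k1, k2⟩ := H.prop s
    have k0' : H (s, 0) = a 0 := k0
    have k1' : H (s, 1) = a 1 := k1
    refine ⟨by rw [k0', ha, φ.left_inv (key η hr 0)], by rw [k1', ha, φ.left_inv (key η hr 1)],
      fun t h0 h1 => ?_⟩
    have k2' : H (s, t) ∉ ({a 0, a 1} : Set ℂ) := k2 t h0 h1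
    rintro (h | h | h)
    · exact k2' (Or.inl ((φ.right_inv (tg _)).symm.trans ((congrArg φ h).trans (ha 0).symm)))
    · exact k2' (Or.inr ((φ.right_inv (tg _)).symm.trans ((congrArg φ h).trans (ha 1).symm)))
    · have := φ.map_target (tg (H (s, t)))
      rw [hs] at this
      exact this h

namespace LftA

theorem ends {X : Type} [TopologicalSpace X] [T2Space X] [CompactSpace X] {F : X → X}
    (hF : Continuous F) {p : X} (hp : (F ⁻¹' {p}).Finite) {H : unitInterval × unitInterval → X}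
    (hH : Continuous H) {t₀ : unitInterval} (h0 : ∀ s, H (s, t₀) = p) {γ : unitInterval → X}
    (hγ : Continuous γ) {A : Set unitInterval} (hA : t₀ ∈ closure A)
    {G : unitInterval × A → X} (hG : Continuous G) (e1 : ∀ s t, F (G (s, t)) = H (s, t.1))
    (e2 : ∀ t, G (0, t) = γ t.1) : γ t₀ ∈ closure (range fun t => G (1, t)) := by
  rw [_root_.mem_closure_iff]
  intro O hO hm
  have hc : IsCompact (F ⁻¹' {p} \ {γ t₀}) := (hp.subset sdiff_subset).isCompact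
  obtain ⟨U, V, hU, hV, sU, sV, hd⟩ := SeparatedNhds.of_isCompact_isCompact
    (isCompact_singleton (x := γ t₀)) hc (by simp)
  have hW : IsOpen (F '' (U ∩ O ∪ V)ᶜ)ᶜ :=
    (hF.isClosedMap _ ((hU.inter hO).union hV).isClosed_compl).isOpen_compl
  have pW : p ∈ (F '' (U ∩ O ∪ V)ᶜ)ᶜ := by
    rintro ⟨x, hx, e⟩
    by_cases h : x = γ t₀
    · exact hx (Or.inl (h ▸ ⟨sU rfl, hm⟩))
    · exact hx (Or.inr (sV ⟨e, h⟩))
  have ev : ∀ᶠ t in 𝓝 t₀, ∀ s ∈ (univ : Set unitInterval), H (s, t) ∈ (F '' (U ∩ O ∪ V)ᶜ)ᶜ :=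
    isCompact_univ.eventually_forall_of_forall_eventually fun s _ =>
      (hH.comp continuous_swap).continuousAt.eventually (hW.mem_nhds (by
        change H (s, t₀) ∈ _
        rw [h0]; exact pW))
  have ev2 : ∀ᶠ t in 𝓝 t₀, γ t ∈ U ∩ O :=
    hγ.continuousAt.eventually ((hU.inter hO).mem_nhds ⟨sU rfl, hm⟩)
  obtain ⟨t, ⟨t1, t2⟩, tA⟩ := mem_closure_iff_nhds.1 hA _ (ev.and ev2)
  have hpre : IsPreconnected (range fun s => G (s, ⟨t, tA⟩)) := isPreconnected_range (by fun_prop)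
  have hsub : (range fun s => G (s, ⟨t, tA⟩)) ⊆ U ∩ O ∪ V := by
    rintro _ ⟨s, rfl⟩
    by_contra hn
    exact t1 s trivial ⟨_, hn, e1 s ⟨t, tA⟩⟩
  have := hpre.subset_left_of_subset_union (hU.inter hO) hV (hd.mono_left inter_subset_left) hsub
    ⟨_, ⟨0, rfl⟩, by beta_reduce; rw [e2]; exact t2⟩
  exact ⟨_, (this ⟨1, rfl⟩).2, ⟨t, tA⟩, rfl⟩

end LftA

theorem p_LIFT : S_LIFT := by
  intro X _ _ _ F P hF hfin hloc p q η η' γ hp hq ⟨H⟩ hγ
  have cov := (IsCoveringMapOn.of_isLocalHomeomorphOn (s := Pᶜ) hF hloc).isCoveringMap_restrictPreimage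
  have hA : ∀ t : Ioo (0 : unitInterval) 1, t.1 ≠ 0 ∧ t.1 ≠ 1 := fun t => ⟨t.2.1.ne', t.2.2.ne⟩
  have hH : ∀ s (t : Ioo (0 : unitInterval) 1), H (s, t.1) ∈ Pᶜ := fun s t =>
    (H.prop s).2.2 t.1 (hA t).1 (hA t).2
  have hg : ∀ t : Ioo (0 : unitInterval) 1, γ t.1 ∈ F ⁻¹' Pᶜ := fun t => by
    have := hH 0 t
    rwa [H.apply_zero, ← hγ] at this
  obtain ⟨G, g1, g2⟩ : ∃ G : C(unitInterval × Ioo (0 : unitInterval) 1, F ⁻¹' Pᶜ),
      (∀ s t, F (G (s, t)) = H (s, t.1)) ∧ ∀ t, (G (0, t) : X) = γ t.1 := by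
    have z : ∀ a : Ioo (0 : unitInterval) 1, (⟨fun w => ⟨H (w.1, w.2.1), hH w.1 w.2⟩, by fun_prop⟩ :
        C(unitInterval × Ioo (0 : unitInterval) 1, ↥Pᶜ)) (0, a) = Pᶜ.restrictPreimage F
        ((⟨fun t => ⟨γ t.1, hg t⟩, by fun_prop⟩ : C(Ioo (0 : unitInterval) 1, F ⁻¹' Pᶜ)) a) :=
      fun a => Subtype.ext ((H.apply_zero _).trans (hγ _).symm)
    exact ⟨cov.liftHomotopy _ _ z, fun s t =>
      congrArg Subtype.val (congr_fun (cov.liftHomotopy_lifts _ _ z) (s, t)),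
      fun t => congrArg Subtype.val (cov.liftHomotopy_zero _ _ z t)⟩
  have hcl : closure (Ioo (0 : unitInterval) 1) = Icc 0 1 := closure_Ioo zero_ne_one
  have hc : Continuous fun w => (G w : X) := by fun_prop
  have : PreconnectedSpace (Ioo (0 : unitInterval) 1) :=
    isPreconnected_iff_preconnectedSpace.1 isPreconnected_Ioo
  refine ⟨range fun t => (G (1, t) : X), isPreconnected_range (by fun_prop),
    LftA.ends hF (hfin.subset fun x hx => ?_) H.continuous (fun s => (H.prop s).1) γ.continuous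
      (hcl ▸ by simp) hc g1 g2,
    LftA.ends hF (hfin.subset fun x hx => ?_) H.continuous (fun s => (H.prop s).2.1) γ.continuous
      (hcl ▸ by simp) hc g1 g2, ?_⟩
  · exact show F x ∈ P from hx ▸ hp
  · exact show F x ∈ P from hx ▸ hq
  · rintro _ ⟨t, rfl⟩
    exact ⟨t.1, (hA t).1, (hA t).2, (g1 1 t).trans (H.apply_one _)⟩

namespace ObsA

/-- The unit interval. -/
abbrev J : Type := unitInterval

/-- Local injectivity. -/
def LI (u : J → J) (s : J) : Prop := ∃ U ∈ 𝓝 s, InjOn u U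

theorem no_extr {u : J → J} (hu : Continuous u) {x y s : J} (hs : s ∈ Ioo x y) (hl : LI u s) :
    ¬ IsExtrOn u (Icc x y) s := by
  obtain ⟨U, hU, hi⟩ := hl
  obtain ⟨x', y', ⟨h1, h2⟩, h3⟩ := (mem_nhds_iff_exists_Ioo_subset' ⟨x, hs.1⟩ ⟨y, hs.2⟩).1
    (inter_mem hU (Icc_mem_nhds hs.1 hs.2))
  obtain ⟨a, a1, a2⟩ := exists_between h1
  obtain ⟨b, b1, b2⟩ := exists_between h2
  have sub : Icc a b ⊆ U ∩ Icc x y := (Icc_subset_Ioo a1 b2).trans h3
  have ma : a ∈ Icc a b := left_mem_Icc.2 (a2.trans b1).le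
  have mb : b ∈ Icc a b := right_mem_Icc.2 (a2.trans b1).le
  have ms : s ∈ Icc a b := ⟨a2.le, b1.le⟩
  rcases hu.continuousOn.strictMonoOn_of_injOn_Icc' (a2.trans b1).le
    (hi.mono fun t ht => (sub ht).1) with h | h <;> rintro (e | e)
  · exact (h ma ms a2).not_ge (e (sub ma).2)
  · exact (h ms mb b1).not_ge (e (sub mb).2)
  · exact (h ms mb b1).not_ge (e (sub mb).2)
  · exact (h ma ms a2).not_ge (e (sub ma).2)

theorem inj {u : J → J} (hu : Continuous u) {x y : J} (hl : ∀ s ∈ Ioo x y, LI u s) :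
    InjOn u (Icc x y) := by
  have key : ∀ a ∈ Icc x y, ∀ b ∈ Icc x y, a < b → u a ≠ u b := fun a ha b hb h e => by
    obtain ⟨s, hs, he⟩ := exists_Ioo_extr_on_Icc h hu.continuousOn e
    exact no_extr hu hs (hl s ⟨ha.1.trans_lt hs.1, hs.2.trans_le hb.2⟩) he
  intro a ha b hb e
  rcases lt_trichotomy a b with h | h | h
  · exact absurd e (key a ha b hb h)
  · exact h
  · exact absurd e.symm (key b hb a ha h)

theorem extreme {u : J → J} (hu : Continuous u) {o m M : J} (h1 : o < m) (h2 : m < M)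
    (e0 : u o = o) (e1 : u m = o) (e2 : u M = o) (lm : LI u m) (hl : ∀ s, u s < o → LI u s) :
    False := by
  obtain ⟨s, hs, hm⟩ := isCompact_Icc.exists_isMinOn (nonempty_Icc.2 (h1.trans h2).le)
    hu.continuousOn
  by_cases h : u s < o
  · refine no_extr hu ⟨lt_of_le_of_ne hs.1 fun e => ?_, lt_of_le_of_ne hs.2 fun e => ?_⟩ (hl s h)
      hm.isExtr
    · rw [← e, e0] at h
      exact h.false
    · rw [e, e2] at h
      exact h.false
  · exact no_extr hu ⟨h1, h2⟩ lm (Or.inl fun t ht => (e1.le.trans (not_lt.1 h)).trans (hm ht))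

/-- The affine parametrisation of a subinterval. -/
def par (x y : J) (t : J) : J := ⟨(1 - t) * x + t * y, by
  have := t.2.1; have := t.2.2; have := x.2.1; have := x.2.2; have := y.2.1; have := y.2.2
  constructor <;> nlinarith⟩

theorem par_cont (x y : J) : Continuous (par x y) := by
  unfold par
  fun_prop

theorem par0 (x y : J) : par x y 0 = x := Subtype.ext (by simp [par])

theorem par1 (x y : J) : par x y 1 = y := Subtype.ext (by simp [par])

theorem par_mono {x y : J} (h : x < y) : StrictMono (par x y) := fun s t e => by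
  have h' : (x : ℝ) < y := h
  have e' : (s : ℝ) < t := e
  change (1 - s) * x + s * y < (1 - t) * (x : ℝ) + t * y
  nlinarith [mul_pos (sub_pos.2 h') (sub_pos.2 e')]

/-- The reversed path. -/
def rev {X : Type} [TopologicalSpace X] (α : C(J, X)) : C(J, X) :=
  ⟨fun t => α (unitInterval.symm t), by fun_prop⟩

section

variable {X : Type} [TopologicalSpace X] [T2Space X] [CompactSpace X] {F : X → X} {P : Set X}

theorem edge (hX : Punct X) (hF : Continuous F) (hfin : (F ⁻¹' P).Finite)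
    (hloc : IsLocalHomeomorphOn F (F ⁻¹' P)ᶜ) {η γ α : C(J, X)} (e : ∀ t, F (γ t) = η t)
    (hi : Function.Injective η) (hin : ∀ t, t ≠ 0 → t ≠ 1 → η t ∉ P) (ai : Function.Injective α)
    {p q r : X} (hP : P = {p, q, r}) (hp : r ≠ p) (hq : r ≠ q) (e0 : η 0 = p) (e1 : η 1 = q)
    (a0 : α 0 = p) (a1 : α 1 = q) (hr : r ∉ range α) {l : X → ℝ} (hl : Continuous l)
    (l0 : l (γ 0) < 0) (l1 : 0 < l (γ 1)) : ∃ x, l x = 0 ∧ F x ∈ range α ∧ F x ∉ P := by
  obtain ⟨φ, hs, ht⟩ := hX r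
  have hr' : r ∉ range η := by
    rintro ⟨t, h⟩
    refine hin t (fun k => hp ?_) (fun k => hq ?_) (by rw [h, hP]; simp)
    · rw [← h, k, e0]
    · rw [← h, k, e1]
  have H := p_H X r φ hs ht η α hi ai (e0.trans a0.symm) (e1.trans a1.symm) hr' hr
  rw [e0, e1, ← hP] at H
  obtain ⟨K, hK, k0, k1, hk⟩ := p_LIFT X F P hF hfin hloc p q η α γ (by rw [hP]; simp)
    (by rw [hP]; simp) H e
  obtain ⟨x, hx, mx⟩ := _root_.mem_closure_iff.1 k0 _ (isOpen_lt hl continuous_const) l0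
  obtain ⟨y, hy, my⟩ := _root_.mem_closure_iff.1 k1 _ (isOpen_lt continuous_const hl) l1
  obtain ⟨z, mz, hz⟩ := hK.intermediate_value mx my hl.continuousOn
    (show (0 : ℝ) ∈ _ from ⟨le_of_lt hx, le_of_lt hy⟩)
  obtain ⟨t, t0, t1, ht⟩ := hk z mz
  refine ⟨z, hz, ⟨t, ht.symm⟩, ?_⟩
  rw [ht, hP]
  rintro (h | h | h)
  · exact t0 (ai (h.trans a0.symm))
  · exact t1 (ai (h.trans a1.symm))
  · exact hr ⟨t, h⟩

omit [TopologicalSpace X] [T2Space X] [CompactSpace X] in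
theorem step {γ : J → X} {l : X → ℝ} {V : Set X} (hV : V.Finite) (gi : Function.Injective γ)
    {lo hi : J} (h : lo ≤ hi) (m0 : γ lo ∈ V) (m1 : γ hi ∈ V) (l0 : l (γ lo) < 0)
    (l1 : 0 < l (γ hi)) : ∃ x y : J, lo ≤ x ∧ x < y ∧ y ≤ hi ∧ γ x ∈ V ∧ γ y ∈ V ∧
      l (γ x) < 0 ∧ 0 ≤ l (γ y) ∧ ∀ s ∈ Ioo x y, γ s ∉ V := by
  have hS : (γ ⁻¹' V).Finite := hV.preimage gi.injOn
  obtain ⟨x, ⟨x1, x2, x3, x4⟩, hx⟩ := exists_max_image
    {t | γ t ∈ V ∧ lo ≤ t ∧ t ≤ hi ∧ l (γ t) < 0} id (hS.subset fun t ht => ht.1)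
    ⟨lo, m0, le_rfl, h, l0⟩
  have xh : x < hi := lt_of_le_of_ne x3 fun e => by rw [e] at x4; exact x4.not_gt l1
  obtain ⟨y, ⟨y1, y2, y3⟩, hy⟩ := exists_min_image {t | γ t ∈ V ∧ x < t ∧ t ≤ hi} id
    (hS.subset fun t ht => ht.1) ⟨hi, m1, xh, le_rfl⟩
  exact ⟨x, y, x2, y2, y3, x1, y1, x4,
    not_lt.1 fun k => y2.not_ge (hx y ⟨y1, x2.trans y2.le, y3, k⟩),
    fun s hs k => hs.2.not_ge (hy s ⟨k, hs.1, hs.2.le.trans y3⟩)⟩

end

end ObsA

open ObsA in
theorem p_NOARC : S_NOARC := by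
  intro X _ _ _ hX F c a b ca cb ab hF Fc Fa Fb hfin hloc
    ⟨α, β, l, w, ai, a0, a1, ra, bi, b0, b1, rb, hl, lc, la, lb, hw, hz⟩
  have main : ∀ γ : unitInterval → X, Continuous γ → Function.Injective γ →
      F '' range γ ⊆ range γ → ∀ tc ta tb, γ tc = c → γ ta = a → γ tb = b → tc < ta → False := by
    intro γ gc gi hinv tc ta tb ec ea eb hca
    choose u hu using fun t => hinv ⟨γ t, ⟨t, rfl⟩, rfl⟩
    have uc : Continuous u := (gc.isClosedEmbedding gi).isEmbedding.continuous_iff.2 (by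
      rw [show γ ∘ u = F ∘ γ from funext hu]; exact hF.comp gc)
    have li : ∀ s, γ s ∈ (F ⁻¹' {c, a, b})ᶜ ∪ {a, b} → LI u s := fun s hs => by
      obtain ⟨e, he, hFe⟩ := hloc _ hs
      refine ⟨γ ⁻¹' e.source, (e.open_source.preimage gc).mem_nhds he, fun x hx y hy h => ?_⟩
      exact gi (e.injOn hx hy (by rw [← hFe, ← hu, ← hu, h]))
    have mem : ∀ s, γ s ∈ F ⁻¹' {c, a, b} ↔ u s = tc ∨ u s = ta ∨ u s = tb := fun s => by
      rw [mem_preimage, ← hu, ← ec, ← ea, ← eb]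
      simp [gi.eq_iff]
    have uc' : u tc = tc := gi (by rw [hu, ec, Fc])
    have ua' : u ta = tc := gi (by rw [hu, ea, ec, Fa])
    have ub' : u tb = tc := gi (by rw [hu, eb, ec, Fb])
    rcases lt_trichotomy tc tb with hcb | hcb | hcb
    · have low : ∀ s, u s < tc → LI u s := fun s h => li s (Or.inl fun k => by
        rcases (mem s).1 k with k | k | k
        · exact h.ne k
        · exact (h.trans hca).ne k
        · exact (h.trans hcb).ne k)
      rcases lt_trichotomy ta tb with h | h | h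
      · exact extreme uc hca h uc' ua' ub' (li _ (Or.inr (Or.inl ea))) low
      · exact ab (by rw [← ea, ← eb, h])
      · exact extreme uc hcb h uc' ub' ua' (li _ (Or.inr (Or.inr eb))) low
    · exact cb (by rw [← ec, ← eb, hcb])
    have hloc' := hloc.mono subset_union_left
    have cross : ∀ l : X → ℝ, Continuous l → (∀ x, l x = 0 → F x ∈ range α ∪ range β → x = w) →
        ∀ lo hi, lo ≤ hi → γ lo ∈ F ⁻¹' {c, a, b} → γ hi ∈ F ⁻¹' {c, a, b} → l (γ lo) < 0 →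
        0 < l (γ hi) → ∃ t, lo ≤ t ∧ t ≤ hi ∧ γ t = w ∧ l w = 0 := by
      intro l hl hz lo hi h m0 m1 l0 l1
      obtain ⟨x, y, x1, xy, y1, mx, my, lx, ly, hno⟩ := step hfin gi h m0 m1 l0 l1
      rcases ly.eq_or_lt with k | k
      · have : γ y = w := hz _ k.symm (by
          rcases my with e | e | e
          · exact Or.inl ⟨0, a0.trans e.symm⟩
          · exact Or.inl ⟨1, a1.trans e.symm⟩
          · exact Or.inr ⟨1, b1.trans e.symm⟩)
        exact ⟨y, x1.trans xy.le, y1, this, this ▸ k.symm⟩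
      exfalso
      have ui := inj uc fun s hs => li s (Or.inl (hno s hs))
      have pm : ∀ t, par x y t ∈ Icc x y := fun t =>
        ⟨(par0 x y).ge.trans ((par_mono xy).monotone t.2.1),
          ((par_mono xy).monotone t.2.2).trans (par1 x y).le⟩
      have E := fun (δ : C(unitInterval, X)) (hδ : Function.Injective δ) (p q r : X) =>
        edge (η := ⟨fun t => F (γ (par x y t)), hF.comp (gc.comp (par_cont x y))⟩)
          (γ := ⟨fun t => γ (par x y t), gc.comp (par_cont x y)⟩) (α := δ) (p := p) (q := q)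
          (r := r) (l := l) hX hF hfin hloc' (fun _ => rfl)
          (fun s t e => (par_mono xy).injective (ui (pm s) (pm t) (gi (by rw [hu, hu]; exact e))))
          (fun t t0 t1 => hno _ ⟨(par0 x y).ge.trans_lt (par_mono xy (unitInterval.pos_iff_ne_zero.2 t0)),
            (par_mono xy (unitInterval.lt_one_iff_ne_one.2 t1)).trans_le (par1 x y).le⟩) hδ
      simp only [ContinuousMap.coe_mk, par0, par1] at E
      have fin : ∀ δ : C(unitInterval, X), range δ ⊆ range α ∪ range β →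
          (∃ x, l x = 0 ∧ F x ∈ range δ ∧ F x ∉ ({c, a, b} : Set X)) → False :=
        fun δ hδ ⟨z, z1, z2, z3⟩ => z3 (hz z z1 (hδ z2) ▸ hw)
      have ri : ∀ δ : C(unitInterval, X), Function.Injective δ → Function.Injective (rev δ) :=
        fun δ hδ => hδ.comp unitInterval.symm_bijective.1
      have rr : ∀ δ : C(unitInterval, X), range (rev δ) ⊆ range δ := by
        rintro δ _ ⟨t, rfl⟩
        exact ⟨_, rfl⟩
      have ne : u x ≠ u y := fun e => xy.ne (ui (left_mem_Icc.2 xy.le) (right_mem_Icc.2 xy.le) e)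
      have mid : tc ∈ uIcc (u x) (u y) → u x = tc ∨ u y = tc := fun k => by
        obtain ⟨s, hs, e⟩ := intermediate_value_uIcc uc.continuousOn k
        rw [uIcc_of_le xy.le] at hs
        rcases hs.1.eq_or_lt with k | k
        · exact Or.inl (k ▸ e)
        rcases hs.2.eq_or_lt with k' | k'
        · exact Or.inr (k' ▸ e)
        exact absurd ((mem s).2 (Or.inl e)) (hno s ⟨k, k'⟩)
      rcases (mem x).1 mx with ex | ex | ex <;> rcases (mem y).1 my with ey | ey | ey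
      · exact ne (ex.trans ey.symm)
      · exact fin α subset_union_left (E α ai c a b rfl cb.symm ab.symm (by rw [← hu, ex, ec])
          (by rw [← hu, ey, ea]) a0 a1 ra hl lx k)
      · exact fin β subset_union_right (E β bi c b a (by rw [pair_comm]) ca.symm ab
          (by rw [← hu, ex, ec]) (by rw [← hu, ey, eb]) b0 b1 rb hl lx k)
      · exact fin (rev α) ((rr α).trans subset_union_left) (E _ (ri α ai) a c b
          (insert_comm _ _ _) ab.symm cb.symm (by rw [← hu, ex, ea]) (by rw [← hu, ey, ec])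
          (by simpa [rev] using a1) (by simpa [rev] using a0) (fun h => ra (rr α h)) hl lx k)
      · exact ne (ex.trans ey.symm)
      · rcases mid (by rw [ex, ey]; exact mem_uIcc.2 (Or.inr ⟨hcb.le, hca.le⟩)) with e | e
        · exact hca.ne' (ex.symm.trans e)
        · exact hcb.ne (ey.symm.trans e)
      · exact fin (rev β) ((rr β).trans subset_union_right) (E _ (ri β bi) b c a
          (by rw [pair_comm a, insert_comm]) ab ca.symm (by rw [← hu, ex, eb])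
          (by rw [← hu, ey, ec]) (by simpa [rev] using b1) (by simpa [rev] using b0)
          (fun h => rb (rr β h)) hl lx k)
      · rcases mid (by rw [ex, ey]; exact mem_uIcc.2 (Or.inl ⟨hcb.le, hca.le⟩)) with e | e
        · exact hcb.ne (ex.symm.trans e)
        · exact hca.ne' (ey.symm.trans e)
      · exact ne (ex.trans ey.symm)
    obtain ⟨s, s1, s2, s3, s4⟩ := cross l hl hz tc ta hca.le ((mem _).2 (Or.inl uc'))
      ((mem _).2 (Or.inl ua')) (ec ▸ lc) (ea ▸ la)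
    obtain ⟨t, t1, t2, t3, -⟩ := cross (fun x => -l x) hl.neg (fun x h => hz x (neg_eq_zero.1 h))
      tb tc hcb.le ((mem _).2 (Or.inl ub')) ((mem _).2 (Or.inl uc'))
      (by rw [eb]; exact neg_neg_of_pos lb) (by rw [ec]; exact neg_pos.2 lc)
    have : s = tc := le_antisymm (gi (s3.trans t3.symm) ▸ t2) s1
    rw [← s3, this, ec] at s4
    exact lc.ne s4
  rintro ⟨γ, gc, gi, hP, hinv⟩
  obtain ⟨tc, ec⟩ := hP (show c ∈ _ by simp)
  obtain ⟨ta, ea⟩ := hP (show a ∈ _ by simp)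
  obtain ⟨tb, eb⟩ := hP (show b ∈ _ by simp)
  rcases lt_trichotomy tc ta with h | h | h
  · exact main γ gc gi hinv tc ta tb ec ea eb h
  · exact ca (by rw [← ec, ← ea, h])
  · refine main (γ ∘ unitInterval.symm) (by fun_prop) (gi.comp unitInterval.symm_bijective.1) ?_
      (unitInterval.symm tc) (unitInterval.symm ta) (unitInterval.symm tb) (by simpa using ec)
      (by simpa using ea) (by simpa using eb) (unitInterval.symm_lt_symm.2 h)
    rwa [unitInterval.symm_bijective.2.range_comp]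

namespace LoopA

variable {X : Type} [TopologicalSpace X]

theorem jordan {δ : ℝ → X} {s t : ℝ} (hst : s < t) (hc : Continuous δ) (e : δ s = δ t)
    (hi : InjOn δ (Ico s t)) : ∃ C, IsJordanCurve C ∧ C ⊆ δ '' Icc s t := by
  have : Fact (0 < t - s) := ⟨sub_pos.2 hst⟩
  have h := (sub_pos.2 hst).ne'
  have k : s + (t - s) = t := by ring
  have m : ∀ x, (AddCircle.equivIco (t - s) s x).1 ∈ Ico s t := fun x =>
    ⟨(AddCircle.equivIco (t - s) s x).2.1, (AddCircle.equivIco (t - s) s x).2.2.trans_eq k⟩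
  refine ⟨_, ⟨AddCircle.liftIco (t - s) s δ ∘ (AddCircle.homeomorphCircle h).symm,
    (AddCircle.liftIco_continuous (by rw [k, e]) hc.continuousOn).comp (Homeomorph.continuous _),
    Function.Injective.comp (fun x y e => ?_) (Homeomorph.injective _), rfl⟩, ?_⟩
  · exact (AddCircle.equivIco (t - s) s).injective (Subtype.ext (hi (m x) (m y) e))
  · rintro _ ⟨x, rfl⟩
    exact ⟨_, Ico_subset_Icc_self (m _), rfl⟩

theorem noLoop {T : Set X} (h : ∀ C, IsJordanCurve C → ¬ C ⊆ T) : NoLoop T := by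
  intro A A' p q hA hA' hpq sA sA' hi
  obtain ⟨c, s, t, hst, hc, hj, rfl, rfl, rfl⟩ := hA
  obtain ⟨c', s', t', hst', hc', hj', e', e'', rfl⟩ := hA'.symm
  have lt : s < t := lt_of_le_of_ne hst fun e => hpq (by rw [e])
  have key : ∀ u ∈ Icc s t, ∀ v, t < v → v < t + (t' - s') → c u ≠ c' (v - t + s') := by
    intro u hu v hv hv' e
    have m : v - t + s' ∈ Icc s' t' := ⟨by linarith, by linarith⟩
    rcases hi ⟨⟨u, hu, rfl⟩, ⟨_, m, e.symm⟩⟩ with h1 | h1
    · have h2 := hj' m (right_mem_Icc.2 hst') (by rw [← e, h1, e''])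
      linarith
    · have h2 := hj' m (left_mem_Icc.2 hst') (by rw [← e, h1, e'])
      linarith
  obtain ⟨C, hC, sC⟩ := jordan (δ := fun u => if u ≤ t then c u else c' (u - t + s')) (s := s)
    (t := t + (t' - s')) (by linarith)
    (Continuous.if_le hc (by fun_prop) continuous_id continuous_const (by
      rintro u rfl
      simp [e']))
    (by
      by_cases h1 : t + (t' - s') ≤ t
      · have : s' = t' := by linarith
        subst this
        exact absurd (e''.symm.trans e') hpq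
      · simp only [h1, hst, if_false, if_true]
        rw [← e'']
        congr 1
        ring)
    (by
      intro u hu v hv e
      by_cases h1 : u ≤ t <;> by_cases h2 : v ≤ t <;> simp only [h1, h2, if_true, if_false] at e
      · exact hj ⟨hu.1, h1⟩ ⟨hv.1, h2⟩ e
      · exact absurd e (key u ⟨hu.1, h1⟩ v (not_le.1 h2) hv.2)
      · exact absurd e.symm (key v ⟨hv.1, h2⟩ u (not_le.1 h1) hu.2)
      · have := hj' ⟨by linarith [not_le.1 h1], by linarith [hu.2]⟩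
          ⟨by linarith [not_le.1 h2], by linarith [hv.2]⟩ e
        linarith)
  refine h C hC (sC.trans ?_)
  rintro _ ⟨u, hu, rfl⟩
  by_cases h1 : u ≤ t
  · exact sA ⟨u, ⟨hu.1, h1⟩, by simp [h1]⟩
  · exact sA' ⟨u - t + s', ⟨by linarith [not_le.1 h1], by linarith [hu.2]⟩, by simp [h1]⟩

theorem simple [T2Space X] {δ : ℝ → X} (hc : Continuous δ) {a b : ℝ} (hab : a < b)
    (e : δ a = δ b) (hl : ∀ s ∈ Icc a b, ∃ U ∈ 𝓝 s, InjOn δ U) :
    ∃ C, IsJordanCurve C ∧ C ⊆ δ '' Icc a b := by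
  obtain ⟨D, hD⟩ : ∃ D : Set (ℝ × ℝ),
    D = {w | (w ∈ Icc a b ×ˢ Icc a b ∧ δ w.1 = δ w.2) ∧ w.1 < w.2} := ⟨_, rfl⟩
  have c1 : IsClosed {w : ℝ × ℝ | w ∈ Icc a b ×ˢ Icc a b ∧ δ w.1 = δ w.2} :=
    (isClosed_Icc.prod isClosed_Icc).inter (isClosed_eq (by fun_prop) (by fun_prop))
  have c2 : IsClosed D := by
    refine isClosed_of_closure_subset fun w hw => ?_
    have h1 := closure_minimal (s := D) (fun w h => by rw [hD] at h; exact h.1) c1 hw
    have h2 := closure_minimal (s := D) (fun w h => by rw [hD] at h; exact h.2.le)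
      (isClosed_le continuous_fst continuous_snd) hw
    rw [hD]
    refine ⟨h1, lt_of_le_of_ne h2 fun k => ?_⟩
    obtain ⟨U, hU, hi⟩ := hl w.1 h1.1.1
    obtain ⟨v, ⟨v1, v2⟩, hv⟩ := mem_closure_iff_nhds.1 hw _ (prod_mem_nhds hU (k ▸ hU))
    rw [hD] at hv
    exact hv.2.ne (hi v1 v2 hv.1.2)
  obtain ⟨w, hw, hm⟩ := ((isCompact_Icc.prod isCompact_Icc).of_isClosed_subset c2
    fun w h => by rw [hD] at h; exact h.1.1).exists_isMinOn
    ⟨(a, b), by rw [hD]; exact ⟨⟨⟨left_mem_Icc.2 hab.le, right_mem_Icc.2 hab.le⟩, e⟩, hab⟩⟩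
    (f := fun w => w.2 - w.1) (by fun_prop)
  rw [hD] at hw hm
  obtain ⟨⟨⟨w1, w2⟩, w3⟩, w4⟩ := hw
  have key : ∀ u ∈ Ico w.1 w.2, ∀ v ∈ Ico w.1 w.2, u < v → δ u ≠ δ v := fun u hu v hv h k => by
    have : w.2 - w.1 ≤ v - u := hm (show (u, v) ∈ _ from
      ⟨⟨⟨⟨w1.1.trans hu.1, hu.2.le.trans w2.2⟩, ⟨w1.1.trans hv.1, hv.2.le.trans w2.2⟩⟩, k⟩, h⟩)
    linarith [hu.1, hv.2]
  obtain ⟨C, hC, sC⟩ := jordan w4 hc w3 fun u hu v hv k => by
    rcases lt_trichotomy u v with h | h | h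
    · exact absurd k (key u hu v hv h)
    · exact h
    · exact absurd k.symm (key v hv u hu h)
  exact ⟨C, hC, sC.trans (image_mono (Icc_subset_Icc w1.1 w2.2))⟩

end LoopA

open LoopA in
theorem loop_of {X : Type} [TopologicalSpace X] [T2Space X] {F : X → X} {P : Set X}
    (hF : Continuous F) (hP : P.Nontrivial) (hm : MapsTo F P P) (hfin : (F ⁻¹' P).Finite)
    (hloc : IsLocalHomeomorphOn F (F ⁻¹' P)ᶜ) (h : NoArc F P) {γ : unitInterval → X}
    (gc : Continuous γ) (gi : Function.Injective γ) (hs : P ⊆ range γ) :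
    ∃ C, IsJordanCurve C ∧ C ⊆ range γ ∪ F '' range γ := by
  by_contra hn
  have hT : ∀ C, IsJordanCurve C → ¬ C ⊆ range γ ∪ F '' range γ := fun C h1 h2 => hn ⟨C, h1, h2⟩
  obtain ⟨c, hc⟩ : ∃ c : ℝ → X, c = fun r => γ (projIcc 0 1 zero_le_one r) := ⟨_, rfl⟩
  have cc : Continuous c := hc ▸ gc.comp continuous_projIcc
  have ce : ∀ t : unitInterval, c t = γ t := fun t => by rw [hc]; simp
  have cr : ∀ r, c r ∈ range γ := fun r => hc ▸ ⟨_, rfl⟩
  have ci : InjOn c (Icc 0 1) := fun u hu v hv h =>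
    congrArg Subtype.val (gi ((ce ⟨u, hu⟩).symm.trans (h.trans (ce ⟨v, hv⟩))))
  have fS : (γ ⁻¹' (F ⁻¹' P)).Finite := hfin.preimage gi.injOn
  have fP : (γ ⁻¹' P).Finite := fS.subset fun t ht => hm ht
  obtain ⟨p, hp, q, hq, pq⟩ := hP
  obtain ⟨tp, rfl⟩ := hs hp
  obtain ⟨tq, rfl⟩ := hs hq
  obtain ⟨lo, l1, l2⟩ := exists_min_image _ id fP ⟨tp, hp⟩
  obtain ⟨hi, h1, h2⟩ := exists_max_image _ id fP ⟨tp, hp⟩
  have lh : lo < hi := by
    by_contra k
    exact pq (congrArg γ (le_antisymm ((h2 tp hp).trans ((not_lt.1 k).trans (l2 tq hq)))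
      ((h2 tq hq).trans ((not_lt.1 k).trans (l2 tp hp)))))
  have lh' : (lo : ℝ) < hi := lh
  have sub : Icc (lo : ℝ) hi ⊆ Icc 0 1 := Icc_subset_Icc lo.2.1 hi.2.2
  have hH : ArcSet (c '' Icc lo hi) (c lo) (c hi) := ⟨c, lo, hi, lh'.le, cc, ci.mono sub, rfl, rfl, rfl⟩
  have PH : P ⊆ c '' Icc lo hi := fun x hx => by
    obtain ⟨t, rfl⟩ := hs hx
    exact ⟨t, ⟨l2 t hx, h2 t hx⟩, ce t⟩
  have rH : range (γ ∘ ObsA.par lo hi) = c '' Icc lo hi := by
    ext x
    constructor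
    · rintro ⟨t, rfl⟩
      exact ⟨ObsA.par lo hi t, ⟨(ObsA.par0 lo hi).ge.trans ((ObsA.par_mono lh).monotone t.2.1),
        ((ObsA.par_mono lh).monotone t.2.2).trans (ObsA.par1 lo hi).le⟩, ce _⟩
    · rintro ⟨r, hr, rfl⟩
      obtain ⟨t, -, ht⟩ := intermediate_value_Icc (a := 0) (b := 1) zero_le_one
        (ObsA.par_cont lo hi).continuousOn (show (⟨r, sub hr⟩ : unitInterval) ∈ _ by
          rw [ObsA.par0, ObsA.par1]; exact hr)
      exact ⟨t, by rw [Function.comp_apply, ht, ← ce]⟩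
  refine h ⟨γ ∘ ObsA.par lo hi, gc.comp (ObsA.par_cont _ _), gi.comp (ObsA.par_mono lh).injective,
    rH ▸ PH, ?_⟩
  rw [rH]
  rintro _ ⟨_, ⟨r, hr, rfl⟩, rfl⟩
  by_cases k : F (c r) ∈ P
  · exact PH k
  have k' : γ ⟨r, sub hr⟩ ∉ F ⁻¹' P := by rwa [← ce]
  obtain ⟨x, ⟨x1, x2⟩, hx⟩ := exists_max_image {t | γ t ∈ F ⁻¹' P ∧ t ≤ ⟨r, sub hr⟩} id
    (fS.subset fun t ht => ht.1) ⟨lo, hm l1, hr.1⟩
  obtain ⟨y, ⟨y1, y2⟩, hy⟩ := exists_min_image {t | γ t ∈ F ⁻¹' P ∧ ⟨r, sub hr⟩ ≤ t} id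
    (fS.subset fun t ht => ht.1) ⟨hi, hm h1, hr.2⟩
  have x3 : (x : ℝ) ≤ r := x2
  have y3 : r ≤ (y : ℝ) := y2
  have sub' : Icc (x : ℝ) y ⊆ Icc 0 1 := Icc_subset_Icc x.2.1 y.2.2
  have out : ∀ s ∈ Ioo (x : ℝ) y, F (c s) ∉ P := fun s hs k => by
    have m := sub' (Ioo_subset_Icc_self hs)
    have k2 : γ ⟨s, m⟩ ∈ F ⁻¹' P := by rwa [← ce]
    rcases le_total s r with e | e
    · exact hs.1.not_ge (hx ⟨s, m⟩ ⟨k2, e⟩)
    · exact hs.2.not_ge (hy ⟨s, m⟩ ⟨k2, e⟩)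
  have px : F (c x) ∈ P := by rwa [ce]
  have py : F (c y) ∈ P := by rwa [ce]
  have img : ∀ S, (F ∘ c) '' S ⊆ range γ ∪ F '' range γ := by
    rintro S _ ⟨s, -, rfl⟩
    exact Or.inr ⟨_, cr s, rfl⟩
  have inn : ∀ a ∈ Ioo (x : ℝ) y, ∀ b ∈ Ioo (x : ℝ) y, a < b → F (c a) ≠ F (c b) :=
    fun a ha b hb ab e => by
      obtain ⟨C, hC, sC⟩ := simple (δ := F ∘ c) (hF.comp cc) ab e fun s hs => by
        have ms : s ∈ Ioo (x : ℝ) y := ⟨ha.1.trans_le hs.1, hs.2.trans_lt hb.2⟩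
        obtain ⟨φ, hφ, hFe⟩ := hloc _ (out s ms)
        refine ⟨c ⁻¹' φ.source ∩ Ioo (x : ℝ) y, inter_mem ((φ.open_source.preimage cc).mem_nhds hφ)
          (Ioo_mem_nhds ms.1 ms.2), fun u hu v hv e => ?_⟩
        exact ci (sub' (Ioo_subset_Icc_self hu.2)) (sub' (Ioo_subset_Icc_self hv.2))
          (φ.injOn hu.1 hv.1 (by rw [← hFe]; exact e))
      exact hT C hC (sC.trans (img _))
  have ico : ∀ a ∈ Ico (x : ℝ) y, ∀ b ∈ Ico (x : ℝ) y, a < b → F (c a) ≠ F (c b) :=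
    fun a ha b hb ab e => by
      rcases ha.1.eq_or_lt with k | k
      · exact out b ⟨ha.1.trans_lt ab, hb.2⟩ (by rw [← e, ← k]; exact px)
      · exact inn a ⟨k, ha.2⟩ b ⟨k.trans ab, hb.2⟩ ab e
  have tri : ∀ S : Set ℝ, (∀ a ∈ S, ∀ b ∈ S, a < b → F (c a) ≠ F (c b)) → InjOn (F ∘ c) S :=
    fun S hS u hu v hv k => by
      rcases lt_trichotomy u v with h | h | h
      · exact absurd k (hS u hu v hv h)
      · exact h
      · exact absurd k.symm (hS v hv u hu h)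
  have icc : InjOn (F ∘ c) (Icc (x : ℝ) y) := tri _ fun a ha b hb ab e => by
    rcases hb.2.eq_or_lt with kb | kb
    · rcases ha.1.eq_or_lt with ka | ka
      · obtain ⟨C, hC, sC⟩ := jordan (δ := F ∘ c) ab (hF.comp cc) e
          (by rw [← ka, kb]; exact tri _ ico)
        exact hT C hC (sC.trans (img _))
      · exact out a ⟨ka, ab.trans_le hb.2⟩ (by rw [e, kb]; exact py)
    · exact ico a ⟨ha.1, ab.trans kb⟩ b ⟨hb.1, kb⟩ ab e
  obtain ⟨B, sB, hB⟩ := hH.between (PH px) (PH py)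
  have := (noLoop hT).unique ⟨F ∘ c, x, y, x3.trans y3, hF.comp cc, icc, rfl, rfl, rfl⟩ hB (img _)
    (sB.trans (by rintro _ ⟨s, -, rfl⟩; exact Or.inl (cr s)))
  exact sB (this ▸ ⟨r, ⟨x3, y3⟩, rfl⟩)

end Pool.Agent.P.MP_cb5d8b_an.Na
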