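import Pool.Agent.P.MP_cb5d8b_an.Na.Arcs
import Pool.Agent.P.MP_cb5d8b_an.Mp.Dbl

/-! The cut for the folding map, and the theorem from the map block. -/

namespace Pool.Agent.P.MP_cb5d8b_an.Na

open Set Metric Filter Topology

/-- The height over the triangle with corners `0`, `1`, `I`. -/
noncomputable def ht (q : ℂ) : ℝ := min (min q.re q.im) (1 - q.re - q.im)

/-- A real affine map. -/
noncomputable def aff (m : Fin 6 → ℝ) (q : ℂ) : ℂ :=
  ⟨m 0 + m 1 * q.re + m 2 * q.im, m 3 + m 4 * q.re + m 5 * q.im⟩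

/-- The seven tiles. -/
noncomputable def mat : Fin 7 → Fin 6 → ℝ :=
  ![![0, 1 / 3, 0, 0, 0, 1 / 4], ![0, 1 / 3, 0, 1 / 2, -1 / 2, -1 / 4],
    ![0, 1 / 3, 2 / 3, 1 / 2, -1 / 2, -1 / 2], ![1, -1 / 2, -1 / 3, 0, 1 / 2, 0],
    ![0, 1 / 2, 2 / 3, 1 / 2, 0, -1 / 2], ![0, 1 / 2, 0, 1 / 2, 0, 1 / 4],
    ![0, 1 / 2, 0, 1, -1 / 2, -1 / 4]]

theorem le_ht {q : ℂ} {r : ℝ} : r ≤ ht q ↔ r ≤ q.re ∧ r ≤ q.im ∧ r ≤ 1 - q.re - q.im := by
  simp [ht, and_assoc]

theorem aff_mem (i : Fin 7) {q : ℂ} (h : 0 ≤ ht q) : 0 ≤ ht (aff (mat i) q) := by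
  rw [le_ht] at h ⊢
  obtain ⟨h1, h2, h3⟩ := h
  fin_cases i <;> simp [aff, mat] <;> (try refine ⟨?_, ?_⟩) <;> (try refine ⟨?_, ?_⟩) <;> linarith

/-- The sphere as the double of the triangle, with a map folding the seven tiles. -/
structure Fold (p : S2 → ℂ) (z : S2 → ℝ) (f : S2 → S2) : Prop where
  pc : Continuous p
  zc : Continuous z
  abs : ∀ x, |z x| = ht (p x)
  inj : ∀ x y, p x = p y → z x = z y → x = y
  sur : ∀ q w, |w| = ht q → ∃ x, p x = q ∧ z x = w
  fc : Continuous f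
  uq : ∀ x k q, 0 ≤ ht q → p x = aff (mat k) q → p (f x) = q

namespace Fold

variable {p : S2 → ℂ} {z : S2 → ℝ} {f : S2 → S2}

theorem tri (h : Fold p z f) (x : S2) : 0 ≤ ht (p x) := h.abs x ▸ abs_nonneg _

theorem bd (h : Fold p z f) {x y : S2} (e : p x = p y) (h0 : ht (p x) = 0) : x = y :=
  h.inj x y e (by rw [abs_eq_zero.1 ((h.abs x).trans h0), abs_eq_zero.1 ((h.abs y).trans (e ▸ h0))])

theorem path (h : Fold p z f) {σ : unitInterval → ℂ} (hσ : Continuous σ)
    (h0 : ∀ t, ht (σ t) = 0) : ∃ α : C(unitInterval, S2), ∀ t, p (α t) = σ t := by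
  choose α h1 h2 using fun t => h.sur (σ t) 0 (by rw [h0, abs_zero])
  have emb := (h.pc.prodMk h.zc).isClosedEmbedding fun x y e =>
    h.inj x y (congrArg Prod.fst e) (congrArg Prod.snd e)
  refine ⟨⟨α, emb.isEmbedding.continuous_iff.2 ?_⟩, h1⟩
  rw [show (fun x => (p x, z x)) ∘ α = fun t => (σ t, 0) from
    funext fun t => Prod.ext (h1 t) (h2 t)]
  fun_prop

theorem iter (h : Fold p z f) (n : ℕ) (x : S2) (q : ℂ) (hq : 0 ≤ ht q)
    (e1 : q.re = 3 ^ n * (p x).re) (e2 : q.im = 4 ^ n * (p x).im) : p (f^[n] x) = q := by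
  induction n generalizing q with
  | zero => exact Complex.ext (by simpa using e1.symm) (by simpa using e2.symm)
  | succ n ih =>
    rw [Function.iterate_succ_apply']
    refine h.uq _ 0 q hq (ih _ (aff_mem 0 hq) ?_ ?_)
    · simp [aff, mat, e1]; ring
    · simp [aff, mat, e2]; ring

theorem level (h : Fold p z f) (n : ℕ) (x : S2)
    (e : 2 * (3 ^ n * (p x).re) + 2 * (4 ^ n * (p x).im) - 1 = 0) :
    p (f^[n + 1] x) = ⟨3 ^ n * (p x).re, 3 ^ n * (p x).re⟩ := by
  obtain ⟨a, b, -⟩ := le_ht.1 (h.tri x)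
  have a' : 0 ≤ 3 ^ n * (p x).re := by positivity
  have b' : 0 ≤ 4 ^ n * (p x).im := by positivity
  rw [Function.iterate_succ_apply']
  refine h.uq _ 2 _ (le_ht.2 ⟨a', a', by dsimp only; linarith⟩) ?_
  rw [h.iter n x ⟨3 ^ n * (p x).re, 4 ^ n * (p x).im⟩ (le_ht.2 ⟨a', b', by dsimp only; linarith⟩)
    rfl rfl]
  exact Complex.ext (by simp [aff, mat]; ring) (by simp [aff, mat]; linarith)

theorem cut (h : Fold p z f) {c a b : S2} (hc : p c = 0) (ha : p a = 1) (hb : p b = Complex.I)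
    (n : ℕ) : Cut f^[n + 1] c a b := by
  obtain ⟨α, hα⟩ := h.path (σ := fun t => ((t : ℝ) : ℂ)) (by fun_prop) fun t => by
    simp [ht, t.2.1, t.2.2]
  obtain ⟨β, hβ⟩ := h.path (σ := fun t => ((t : ℝ) : ℂ) * Complex.I) (by fun_prop) fun t => by
    simp [ht, t.2.1, t.2.2]
  have hq : ht ⟨0, 1 / (2 * 4 ^ n)⟩ = 0 := by
    have h1 : (1 : ℝ) ≤ 4 ^ n := one_le_pow₀ (by norm_num)
    have h2 : (1 : ℝ) / (2 * 4 ^ n) ≤ 1 := by rw [div_le_one (by positivity)]; linarith
    refine le_antisymm ((min_le_left _ _).trans (min_le_left _ _))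
      (le_ht.2 ⟨le_rfl, by positivity, by dsimp only; linarith⟩)
  obtain ⟨w, hw, -⟩ := h.sur ⟨0, 1 / (2 * 4 ^ n)⟩ 0 (by rw [hq, abs_zero])
  have pc := h.pc
  refine ⟨α, β, fun x => 2 * (3 ^ n * (p x).re) + 2 * (4 ^ n * (p x).im) - 1, w,
    fun s t e => ?_, h.bd (by simp [hα, hc]) (by simp [hα, ht]),
    h.bd (by simp [hα, ha]) (by simp [hα, ht]), ?_, fun s t e => ?_,
    h.bd (by simp [hβ, hc]) (by simp [hβ, ht]), h.bd (by simp [hβ, hb]) (by simp [hβ, ht]), ?_,
    by fun_prop, by simp [hc], ?_, ?_, Or.inl ?_, fun x hx hm => ?_⟩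
  · have := congrArg p e
    rw [hα, hα] at this
    exact Subtype.ext (by exact_mod_cast this)
  · rintro ⟨t, e⟩
    have := congrArg Complex.im ((hα t).symm.trans ((congrArg p e).trans hb))
    simp at this
  · have := congrArg p e
    rw [hβ, hβ] at this
    exact Subtype.ext (by simpa using this)
  · rintro ⟨t, e⟩
    have := congrArg Complex.re ((hβ t).symm.trans ((congrArg p e).trans ha))
    simp at this
  · have h1 : (1 : ℝ) ≤ 3 ^ n := one_le_pow₀ (by norm_num)
    simp only [ha, Complex.one_re, Complex.one_im]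
    linarith
  · have h1 : (1 : ℝ) ≤ 4 ^ n := one_le_pow₀ (by norm_num)
    simp only [hb, Complex.I_re, Complex.I_im]
    linarith
  · have := h.level n w (by rw [hw]; field_simp; ring)
    refine (h.bd (hc.trans (Eq.symm (this.trans ?_))) (by simp [hc, ht])).symm
    rw [hw]
    exact Complex.ext (by simp) (by simp)
  · have k := h.level n x hx
    have u0 : 3 ^ n * (p x).re = 0 := by
      rcases hm with ⟨t, e⟩ | ⟨t, e⟩
      · simpa using (congrArg Complex.im ((hα t).symm.trans ((congrArg p e).trans k))).symm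
      · simpa using (congrArg Complex.re ((hβ t).symm.trans ((congrArg p e).trans k))).symm
    refine (h.bd (hw.trans (Complex.ext ?_ ?_)) (hw ▸ hq)).symm
    · exact ((mul_eq_zero.1 u0).resolve_left (by positivity)).symm
    · beta_reduce at hx
      rw [u0] at hx
      dsimp only
      field_simp
      linarith

end Fold

theorem punct : Punct S2 := fun o => by
  have : Fact (Module.finrank ℝ (EuclideanSpace ℝ (Fin 3)) = 2 + 1) := ⟨by simp⟩
  exact ⟨(stereographic' 2 o).transHomeomorph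
    Complex.orthonormalBasisOneI.repr.symm.toHomeomorph, by simp, by simp⟩

theorem iter_loc {X : Type} [TopologicalSpace X] {f : X → X} {P : Set X} (hP : MapsTo f P P)
    (h : IsLocalHomeomorphOn f ((f ⁻¹' P)ᶜ ∪ P)) (n : ℕ) :
    IsLocalHomeomorphOn f^[n] ((f^[n] ⁻¹' P)ᶜ ∪ P) := by
  induction n with
  | zero => exact (Homeomorph.refl X).isLocalHomeomorph.isLocalHomeomorphOn
  | succ n ih =>
    rw [Function.iterate_succ]
    refine ih.comp (h.mono (union_subset_union_left _ fun x hx k => hx (hP.iterate n k))) ?_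
    rintro x (hx | hx)
    · exact Or.inl hx
    · exact Or.inr (hP hx)

theorem iter_fin {X : Type} {f : X → X} (h : ∀ y, (f ⁻¹' {y}).Finite) {P : Set X}
    (hP : P.Finite) (n : ℕ) : (f^[n] ⁻¹' P).Finite := by
  induction n with
  | zero => exact hP
  | succ n ih =>
    rw [Function.iterate_succ, preimage_comp]
    exact ih.preimage' fun y _ => h y

theorem Fold.main {p : S2 → ℂ} {z : S2 → ℝ} {f : S2 → S2} (h : Fold p z f)
    (hfin : ∀ y, (f ⁻¹' {y}).Finite) {P : Set S2} (hP : P = p ⁻¹' {0, 1, Complex.I})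
    (hloc : IsLocalHomeomorphOn f ((f ⁻¹' P)ᶜ ∪ P)) :
    P.ncard = 3 ∧ ∀ n : ℕ, 1 ≤ n → NoArc f^[n] P := by
  obtain ⟨c, hc, -⟩ := h.sur 0 0 (by simp [ht])
  obtain ⟨a, ha, -⟩ := h.sur 1 0 (by simp [ht])
  obtain ⟨b, hb, -⟩ := h.sur Complex.I 0 (by simp [ht])
  have e : P = {c, a, b} := by
    rw [hP]
    ext x
    constructor
    · rintro (k | k | k)
      · exact Or.inl (h.bd (k.trans hc.symm) (by simp [k, ht]))
      · exact Or.inr (Or.inl (h.bd (k.trans ha.symm) (by simp [k, ht])))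
      · have k' : p x = Complex.I := k
        exact Or.inr (Or.inr (h.bd (k'.trans hb.symm) (by simp [k', ht])))
    · rintro (rfl | rfl | rfl)
      · exact Or.inl hc
      · exact Or.inr (Or.inl ha)
      · exact Or.inr (Or.inr hb)
  have ca : c ≠ a := fun k => by rw [k, ha] at hc; exact one_ne_zero hc
  have cb : c ≠ b := fun k => by rw [k, hb] at hc; exact Complex.I_ne_zero hc
  have ab : a ≠ b := fun k => by
    rw [k, hb] at ha
    simpa using congrArg Complex.re ha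
  have key : ∀ x k, p x = aff (mat k) 0 → f x = c := fun x k e =>
    (h.bd (hc.trans (h.uq x k 0 (by simp [ht]) e).symm) (by simp [hc, ht])).symm
  have fc : f c = c := key c 0 (hc.trans (Complex.ext (by simp [aff, mat]) (by simp [aff, mat])))
  have fa : f a = c := key a 3 (ha.trans (Complex.ext (by simp [aff, mat]) (by simp [aff, mat])))
  have fb : f b = c := key b 6 (hb.trans (Complex.ext (by simp [aff, mat]) (by simp [aff, mat])))
  subst e
  refine ⟨ncard_eq_three.2 ⟨c, a, b, ca, cb, ab, rfl⟩, fun n hn => ?_⟩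
  obtain ⟨n, rfl⟩ : ∃ m, n = m + 1 := ⟨n - 1, by omega⟩
  have Fc : f^[n] c = c := Function.iterate_fixed fc n
  have maps : MapsTo f {c, a, b} {c, a, b} := by
    rintro x (rfl | rfl | rfl)
    exacts [Or.inl fc, Or.inl fa, Or.inl fb]
  exact p_NOARC S2 punct _ c a b ca cb ab (h.fc.iterate _) (Function.iterate_fixed fc _)
    (by rw [Function.iterate_succ_apply, fa, Fc]) (by rw [Function.iterate_succ_apply, fb, Fc])
    (iter_fin hfin (toFinite _) _)
    ((iter_loc maps hloc _).mono (union_subset_union_right _ (subset_insert _ _)))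
    (h.cut hc ha hb n)

theorem rho_eq (q : ℂ) : Mp.rho q = ht q := min_comm _ _

theorem B_eq (k : Fin 7) (q : ℂ) : Mp.B k q = aff (mat k) q := by
  apply Complex.ext
  · rw [Mp.B_re]
    fin_cases k <;> simp [aff, mat] <;> ring
  · rw [Mp.B_im]
    fin_cases k <;> simp [aff, mat] <;> ring

theorem glue (h : Mp.S_MAP) : ∃ f : S2 → S2,
    IsThurston f ∧ IsExpanding f ∧ HasDegree f 7 ∧ (post f).ncard = 3 ∧
      ∀ n : ℕ, 1 ≤ n → ∀ γ : unitInterval → S2, Continuous γ → Function.Injective γ →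
        post f ⊆ range γ → ∃ C, IsJordanCurve C ∧ C ⊆ range γ ∪ f^[n] '' range γ := by
  obtain ⟨p, z, f, hD, hF, -, hT, hd, hE, hP, h3, hfin, hloc⟩ := h
  have fc : Continuous f := hT.1.1
  have H : Fold p z f := ⟨hD.cpr, hD.cht, fun x => (hD.abs x).trans (rho_eq _), hD.inj,
    fun q w e => hD.surj q w (e.trans (rho_eq q).symm), fc,
    fun x k q h1 h2 => (hF x k q (h1.trans_eq (rho_eq q).symm) (h2.trans (B_eq k q).symm)).1⟩
  have hm : MapsTo f (post f) (post f) := by
    intro x hx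
    simp only [post, mem_iUnion, exists_prop] at hx ⊢
    obtain ⟨n, hn, y, hy, rfl⟩ := hx
    exact ⟨n + 1, by omega, y, hy, Function.iterate_succ_apply' f n y⟩
  refine ⟨f, hT, hE, hd, h3, fun n hn γ gc gi hs => ?_⟩
  exact loop_of (fc.iterate n) ((one_lt_ncard_iff_nontrivial_and_finite.1 (by omega)).1)
    (hm.iterate n) (iter_fin hfin hT.2.2 n) ((iter_loc hm hloc n).mono subset_union_left)
    ((H.main hfin hP hloc).2 n hn) gc gi hs

end Pool.Agent.P.MP_cb5d8b_an.Na
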